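import Pool.Agent.H474.MS.Stm

set_option autoImplicit false

open MeasureTheory Filter Topology Set

namespace Pool.Agent.H977.MS.L0

/-- the integral of a negative power -/
lemma lint {a r : ℝ} (ha : 0 < a) (hr : r < -1) :
    ∫⁻ t in Ioi a, ENNReal.ofReal (t ^ r) = ENNReal.ofReal (-a ^ (r + 1) / (r + 1)) := by
  rw [← ofReal_integral_eq_lintegral_ofReal (integrableOn_Ioi_rpow_of_lt hr ha),
    integral_Ioi_rpow_of_lt hr ha]
  filter_upwards [ae_restrict_mem measurableSet_Ioi] with t ht
  exact Real.rpow_nonneg (ha.le.trans (le_of_lt ht)) _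

/-- the weight -/
noncomputable def F (t : ℝ) : ENNReal := 2 * ENNReal.ofReal (t ^ (-3 : ℝ))

lemma F_meas : Measurable F := by
  unfold F
  fun_prop

lemma low (x : ℝ) : ENNReal.ofReal (1 / (max x 1) ^ 2) ≤
    ∫⁻ t in Ioi (1 : ℝ), if x ≤ t then F t else 0 := by
  have h1 : 1 ≤ max x 1 := le_max_right _ _
  have h0 : 0 < max x 1 := by linarith
  have h2 : ∫⁻ t in Ioi (max x 1), F t = ENNReal.ofReal (1 / (max x 1) ^ 2) := by
    unfold F
    rw [lintegral_const_mul _ (by fun_prop), lint h0 (by norm_num)]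
    have h3 : (2 : ENNReal) = ENNReal.ofReal 2 := by simp
    rw [h3, ← ENNReal.ofReal_mul (by norm_num)]
    congr 1
    have h4 : (-3 : ℝ) + 1 = -2 := by norm_num
    rw [h4, Real.rpow_neg h0.le, show (2 : ℝ) = ((2 : ℕ) : ℝ) by norm_num, Real.rpow_natCast]
    push_cast
    field_simp
  rw [← h2]
  calc ∫⁻ t in Ioi (max x 1), F t = ∫⁻ t in Ioi (max x 1), (if x ≤ t then F t else 0) := by
        refine setLIntegral_congr_fun measurableSet_Ioi fun t ht => ?_
        have h5 : x ≤ t := (le_max_left x 1).trans (le_of_lt ht)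
        simp only [if_pos h5]
    _ ≤ _ := lintegral_mono_set (Ioi_subset_Ioi h1)

theorem t_L0 : Pool.Agent.H474.MS.S_L0 := by
  intro ι b g C hC h
  rw [ENNReal.tsum_eq_iSup_sum]
  refine iSup_le fun s => ?_
  have hme : ∀ i, Measurable (fun t : ℝ => if g i ≤ t then F t else 0) := fun i =>
    Measurable.ite measurableSet_Ici F_meas measurable_const
  calc ∑ i ∈ s, b i * ENNReal.ofReal (1 / (max (g i) 1) ^ 2)
      ≤ ∑ i ∈ s, b i * ∫⁻ t in Ioi (1 : ℝ), (if g i ≤ t then F t else 0) :=
        Finset.sum_le_sum fun i _ => mul_le_mul_right (low (g i)) _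
    _ = ∑ i ∈ s, ∫⁻ t in Ioi (1 : ℝ), b i * (if g i ≤ t then F t else 0) :=
        Finset.sum_congr rfl fun i _ => (lintegral_const_mul _ (hme i)).symm
    _ = ∫⁻ t in Ioi (1 : ℝ), ∑ i ∈ s, b i * (if g i ≤ t then F t else 0) :=
        (lintegral_finsetSum _ fun i _ => (hme i).const_mul _).symm
    _ ≤ ∫⁻ t in Ioi (1 : ℝ), ENNReal.ofReal (2 * C) * ENNReal.ofReal (t ^ (-2 : ℝ)) := by
        refine setLIntegral_mono' measurableSet_Ioi fun t ht => ?_
        have ht1 : (1 : ℝ) ≤ t := le_of_lt ht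
        have ht0 : 0 < t := by linarith
        have e1 : ∑ i ∈ s, b i * (if g i ≤ t then F t else 0) =
            (∑ i ∈ s, if g i ≤ t then b i else 0) * F t := by
          rw [Finset.sum_mul]
          refine Finset.sum_congr rfl fun i _ => ?_
          split_ifs <;> simp
        rw [e1]
        have e2 : (∑ i ∈ s, if g i ≤ t then b i else 0) ≤ ENNReal.ofReal (C * t) :=
          (ENNReal.sum_le_tsum s).trans (h t ht1)
        refine (mul_le_mul_left e2 _).trans (le_of_eq ?_)
        unfold F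
        have h3 : (2 : ENNReal) = ENNReal.ofReal 2 := by simp
        rw [h3, ← ENNReal.ofReal_mul (by norm_num), ← ENNReal.ofReal_mul (by positivity),
          ← ENNReal.ofReal_mul (by positivity)]
        congr 1
        have h4 : t ^ (-2 : ℝ) = t * t ^ (-3 : ℝ) := by
          rw [show (-2 : ℝ) = 1 + (-3) by norm_num, Real.rpow_add ht0, Real.rpow_one]
        rw [h4]
        ring
    _ = ENNReal.ofReal (2 * C) := by
        rw [lintegral_const_mul _ (by fun_prop), lint one_pos (by norm_num)]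
        norm_num

end Pool.Agent.H977.MS.L0
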